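import Pool.Agent.H.MP_906480_an.Uniq
import Pool.Agent.H.MP_906480_an.Detect

/-!
A Banach space without a basis whose dual space has a weak* basis.

The space is the closed linear span in the bounded functions on the binary tree of the
coordinate vectors and of the indicators of an uncountable almost disjoint family of sets
of nodes; the family is built (without extra set theoretic assumptions) so that it detects
every finite signed measure on the space of branches.  The weak* basis consists of the
functionals `x ↦ x k - x (k / 2)`, where `k / 2` is the parent of the node `k`.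
-/

namespace Pool.Agent.Results.MP_906480_an.WeakStarBasisNoBasis

open Filter Topology

theorem result :
    ∀ (𝕜 : Type) [RCLike 𝕜], ∃ (E : Type) (_ : NormedAddCommGroup E) (_ : NormedSpace 𝕜 E),
      CompleteSpace E ∧
      (∃ f : ℕ → (E →L[𝕜] 𝕜), ∀ φ : E →L[𝕜] 𝕜, ∃! a : ℕ → 𝕜, ∀ x : E,
        Tendsto (fun n => ∑ i ∈ Finset.range n, a i * f i x) atTop (𝓝 (φ x))) ∧
      ¬ ∃ e : ℕ → E, ∀ x : E, ∃! a : ℕ → 𝕜,
        Tendsto (fun n => ∑ i ∈ Finset.range n, a i • e i) atTop (𝓝 x) := by
  intro 𝕜 _
  obtain ⟨P, b, hcore⟩ := H.MP_906480_an.core_exists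
  refine ⟨H.MP_906480_an.Sp 𝕜 P b, inferInstance, inferInstance, inferInstance,
    ⟨H.MP_906480_an.fF 𝕜 P b, H.MP_906480_an.isWeakStarBasis_fF hcore⟩, ?_⟩
  rintro ⟨e, he⟩
  exact H.MP_906480_an.not_separable (𝕜 := 𝕜) hcore
    (H.MP_906480_an.IsBasis.separable (𝕜 := 𝕜) he)

end Pool.Agent.Results.MP_906480_an.WeakStarBasisNoBasis
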